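import Pool.Agent.PFC.StmtsB5b

/-!
# Squad PFC, row LSC: a corner has at most as many simple modules
-/

open scoped BigOperators

namespace Pool.Agent.PFC.H63

/-- Finitely many irreducible representations such that the intersection of the kernels is nil. -/
theorem wed (F X : Type) [Field F] [IsAlgClosed F] [Ring X] [Algebra F X]
    [FiniteDimensional F X] :
    ∃ (n : ℕ) (d : Fin n → ℕ) (ρ : ∀ i, X →ₐ[F] Matrix (Fin (d i)) (Fin (d i)) F),
      (∀ i, 0 < d i) ∧ (∀ i, Function.Surjective (ρ i)) ∧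
      ∀ x, (∀ i, ρ i x = 0) → IsNilpotent x := by
  have hA : IsArtinianRing X := IsArtinianRing.of_finite F X
  have hF : FiniteDimensional F (X ⧸ Ring.jacobson X) :=
    Module.Finite.of_surjective (Ideal.Quotient.mkₐ F (Ring.jacobson X)).toLinearMap
      (Ideal.Quotient.mkₐ_surjective F _)
  obtain ⟨n, d, hd, ⟨e⟩⟩ :=
    IsSemisimpleRing.exists_algEquiv_pi_matrix_of_isAlgClosed F (X ⧸ Ring.jacobson X)
  refine ⟨n, d, fun i => (Pi.evalAlgHom F _ i).comp
    (e.toAlgHom.comp (Ideal.Quotient.mkₐ F (Ring.jacobson X))),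
    fun i => Nat.pos_of_ne_zero (hd i).out, ?_, ?_⟩
  · intro i z
    obtain ⟨y, hy⟩ := e.surjective (Pi.single i z)
    obtain ⟨x, hx⟩ := Ideal.Quotient.mk_surjective y
    refine ⟨x, ?_⟩
    have h1 : e (Ideal.Quotient.mk (Ring.jacobson X) x) = Pi.single i z := by
      rw [hx, hy]
    have h2 := congrFun h1 i
    rw [Pi.single_eq_same] at h2
    exact h2
  · intro x hx
    have h1 : Ideal.Quotient.mk (Ring.jacobson X) x = 0 := by
      apply e.injective
      rw [map_zero]
      funext i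
      exact hx i
    rw [Ideal.Quotient.eq_zero_iff_mem] at h1
    obtain ⟨m, hm⟩ := IsSemiprimaryRing.isNilpotent (R := X)
    refine ⟨m, ?_⟩
    have h2 := Ideal.pow_mem_pow h1 m
    rw [hm] at h2
    exact h2

theorem mat_mid {F : Type} [Field F] {m : ℕ} {M N : Matrix (Fin m) (Fin m) F} (hM : M ≠ 0)
    (hN : N ≠ 0) : ∃ Z : Matrix (Fin m) (Fin m) F, M * Z * N ≠ 0 := by
  have h1 : ∃ a b, M a b ≠ 0 := by
    by_contra h
    push Not at h
    exact hM (Matrix.ext h)
  have h2 : ∃ a b, N a b ≠ 0 := by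
    by_contra h
    push Not at h
    exact hN (Matrix.ext h)
  obtain ⟨a, b, hab⟩ := h1
  obtain ⟨c, d, hcd⟩ := h2
  refine ⟨Matrix.single b c 1, ?_⟩
  intro h
  have h3 := congrFun (congrFun h a) d
  rw [Matrix.mul_assoc, Matrix.mul_apply] at h3
  rw [Finset.sum_eq_single b] at h3
  · rw [Matrix.single_mul_apply_same, one_mul, Matrix.zero_apply] at h3
    exact (mul_ne_zero hab hcd) h3
  · intro k _ hk
    rw [Matrix.single_mul_apply_of_ne _ _ _ _ _ hk, mul_zero]
  · intro h
    exact absurd (Finset.mem_univ _) h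

theorem mat_one {F : Type} [Field F] {m : ℕ} {M : Matrix (Fin m) (Fin m) F} (hM : M ≠ 0) :
    ∃ A B : Fin m → Matrix (Fin m) (Fin m) F, ∑ k, A k * M * B k = 1 := by
  have h1 : ∃ a b, M a b ≠ 0 := by
    by_contra h
    push Not at h
    exact hM (Matrix.ext h)
  obtain ⟨a, b, hab⟩ := h1
  refine ⟨fun k => Matrix.single k a (M a b)⁻¹, fun k => Matrix.single b k 1, ?_⟩
  have h2 : ∀ k, Matrix.single k a (M a b)⁻¹ * M * Matrix.single b k 1 =
      Matrix.single k k (1 : F) := by
    intro k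
    rw [Matrix.single_mul_mul_single]
    congr 1
    rw [mul_one, inv_mul_cancel₀ hab]
  rw [Finset.sum_congr rfl (fun k _ => h2 k)]
  ext p q
  rw [Matrix.sum_apply]
  by_cases hpq : p = q
  · subst hpq
    rw [Matrix.one_apply_eq, Finset.sum_eq_single p]
    · rw [Matrix.single_apply_same]
    · intro k _ hk
      rw [Matrix.single_apply_of_ne]
      exact fun h => hk h.1
    · intro h
      exact absurd (Finset.mem_univ _) h
  · rw [Matrix.one_apply_ne hpq]
    refine Finset.sum_eq_zero ?_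
    intro k _
    rw [Matrix.single_apply_of_ne]
    exact fun h => hpq (h.1.symm.trans h.2)

/-- The kernel of an irreducible representation of the corner is the restriction of one of the
kernels for the algebra. -/
theorem crn {F X Y : Type} [Field F] [Ring X] [Algebra F X] [Ring Y] [Algebra F Y]
    {j : X} {κ : Y →ₗ[F] X} (hc : Cnr j κ) {n : ℕ} {d : Fin n → ℕ}
    (ρ : ∀ i, X →ₐ[F] Matrix (Fin (d i)) (Fin (d i)) F) (hs : ∀ i, Function.Surjective (ρ i))
    (hnil : ∀ x, (∀ i, ρ i x = 0) → IsNilpotent x) {m : ℕ} (hm : 0 < m)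
    (σ : Y →ₐ[F] Matrix (Fin m) (Fin m) F) (hσ : Function.Surjective σ) :
    ∃ i, ∀ y, σ y = 0 ↔ ρ i (κ y) = 0 := by
  classical
  have h10 : (1 : Matrix (Fin m) (Fin m) F) ≠ 0 := by
    have : Nonempty (Fin m) := ⟨⟨0, hm⟩⟩
    exact one_ne_zero
  have hjy : ∀ y, j * κ y = κ y := by
    intro y
    rw [← hc.one, ← hc.mul, one_mul]
  have hyj : ∀ y, κ y * j = κ y := by
    intro y
    rw [← hc.one, ← hc.mul, mul_one]
  have hjj : j * j = j := by
    have := hjy 1
    rwa [hc.one] at this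
  have hcr : ∀ x, ∃ y, κ y = j * x * j := by
    intro x
    refine hc.ran (j * x * j) ?_ ?_
    · rw [← mul_assoc, ← mul_assoc, hjj]
    · rw [mul_assoc, hjj]
  choose cr hcr using hcr
  -- the nil part
  have hN : ∀ y, (∀ i, ρ i (κ y) = 0) → σ y = 0 := by
    intro y hy
    by_contra hne
    obtain ⟨A, B, hAB⟩ := mat_one hne
    choose a ha using fun k => hσ (A k)
    choose b hb using fun k => hσ (B k)
    have hw : σ (∑ k, a k * y * b k) = 1 := by
      rw [map_sum, ← hAB]
      refine Finset.sum_congr rfl ?_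
      intro k _
      rw [map_mul, map_mul, ha, hb]
    have hw2 : ∀ i, ρ i (κ (∑ k, a k * y * b k)) = 0 := by
      intro i
      rw [map_sum, map_sum]
      refine Finset.sum_eq_zero ?_
      intro k _
      rw [hc.mul, hc.mul, map_mul, map_mul, hy i, mul_zero, zero_mul]
    obtain ⟨N, hN⟩ := hnil _ hw2
    have hpow : ∀ (w : Y) (k : ℕ), κ (w ^ (k + 1)) = (κ w) ^ (k + 1) := by
      intro w k
      induction k with
      | zero => rw [zero_add, pow_one, pow_one]
      | succ k ih => rw [pow_succ, hc.mul, ih, ← pow_succ]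
    have h3 : (∑ k, a k * y * b k) ^ (N + 1) = 0 := by
      apply hc.inj
      rw [hpow, pow_succ, hN, zero_mul, map_zero]
    have h4 := congrArg σ h3
    rw [map_pow, hw, one_pow, map_zero] at h4
    exact h10 h4
  -- the prime part
  have hP : ∃ i, ∀ y, ρ i (κ y) = 0 → σ y = 0 := by
    by_contra hcon
    push Not at hcon
    choose z hz hz2 using hcon
    have hS : ∀ S : Finset (Fin n), ∃ y, σ y ≠ 0 ∧ ∀ i ∈ S, ρ i (κ y) = 0 := by
      intro S
      induction S using Finset.induction_on with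
      | empty => exact ⟨1, by rw [map_one]; exact h10, by simp⟩
      | insert i S _ ih =>
        obtain ⟨y, hy, hy2⟩ := ih
        obtain ⟨Z, hZ⟩ := mat_mid hy (hz2 i)
        obtain ⟨w, hw⟩ := hσ Z
        refine ⟨y * w * z i, ?_, ?_⟩
        · rw [map_mul, map_mul, hw]
          exact hZ
        · intro k hk
          rw [hc.mul, hc.mul, map_mul, map_mul]
          rcases Finset.mem_insert.1 hk with rfl | hk
          · rw [hz, mul_zero]
          · rw [hy2 k hk, zero_mul, zero_mul]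
    obtain ⟨y, hy, hy2⟩ := hS Finset.univ
    exact hy (hN y fun i => hy2 i (Finset.mem_univ i))
  obtain ⟨i, hi⟩ := hP
  refine ⟨i, fun y => ⟨fun hy => ?_, hi y⟩⟩
  by_contra hne
  obtain ⟨A, B, hAB⟩ := mat_one hne
  choose a ha using fun k => hs i (A k)
  choose b hb using fun k => hs i (B k)
  have hw : σ (∑ k, cr (a k) * y * cr (b k)) = 0 := by
    rw [map_sum]
    refine Finset.sum_eq_zero ?_
    intro k _
    rw [map_mul, map_mul, hy, mul_zero, zero_mul]
  have hκ : κ (∑ k, cr (a k) * y * cr (b k)) = j * (∑ k, a k * κ y * b k) * j := by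
    rw [map_sum, Finset.mul_sum, Finset.sum_mul]
    refine Finset.sum_congr rfl ?_
    intro k _
    rw [hc.mul, hc.mul, hcr, hcr]
    calc j * a k * j * κ y * (j * b k * j) = j * a k * (j * κ y * j) * b k * j := by
          simp only [mul_assoc]
      _ = j * (a k * κ y * b k) * j := by
          rw [hjy, hyj]
          simp only [mul_assoc]
  have h1 : ρ i (κ (∑ k, cr (a k) * y * cr (b k))) = ρ i (κ 1) := by
    rw [hκ, map_mul, map_mul, map_sum]
    have h2 : ∑ k, ρ i (a k * κ y * b k) = 1 := by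
      rw [← hAB]
      refine Finset.sum_congr rfl ?_
      intro k _
      rw [map_mul, map_mul, ha, hb]
    rw [h2, mul_one, ← map_mul, hjj, hc.one]
  have h3 : σ ((∑ k, cr (a k) * y * cr (b k)) - 1) = 0 := by
    apply hi
    rw [map_sub, map_sub, h1, sub_self]
  rw [map_sub, hw, map_one, zero_sub, neg_eq_zero] at h3
  exact h10 h3

/-- There are finitely many kernels. -/
theorem kers_fin (F X : Type) [Field F] [IsAlgClosed F] [Ring X] [Algebra F X]
    [FiniteDimensional F X] : (kers F X).Finite := by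
  obtain ⟨n, d, ρ, -, hs, hnil⟩ := wed F X
  refine (Set.finite_range fun i : Fin n => {x : X | ρ i x = 0}).subset ?_
  rintro K ⟨m, σ, hm, hσ, rfl⟩
  have hc : Cnr (1 : X) (LinearMap.id : X →ₗ[F] X) :=
    ⟨fun _ _ h => h, fun _ _ => rfl, rfl, fun a _ _ => ⟨a, rfl⟩⟩
  obtain ⟨i, hi⟩ := crn hc ρ hs hnil hm σ hσ
  refine ⟨i, ?_⟩
  ext x
  exact (hi x).symm

/-- Row LSC. -/
theorem lsc : LscStmt := by
  intro F X Y _ _ _ _ _ _ _ j κ hc
  obtain ⟨n, d, ρ, hd, hs, hnil⟩ := wed F X
  have hsub : kers F Y ⊆ (fun S : Set X => κ ⁻¹' S) '' kers F X := by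
    rintro K ⟨m, σ, hm, hσ, rfl⟩
    obtain ⟨i, hi⟩ := crn hc ρ hs hnil hm σ hσ
    refine ⟨{x | ρ i x = 0}, ⟨d i, ρ i, hd i, hs i, rfl⟩, ?_⟩
    ext y
    exact (hi y).symm
  have hfin := kers_fin F X
  exact (Set.ncard_le_ncard hsub (hfin.image _)).trans (Set.ncard_image_le hfin)

end Pool.Agent.PFC.H63
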