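import Pool.Agent.PFC.StmtsB4b

/-!
# Squad PFC, row QLP: products over permuted lists
-/

noncomputable section

namespace Pool.Agent.PFC.H63

/-- the factor of a signed index -/
def fac {F V ι : Type} [Field F] [CommGroup V] (S : ι → IA F V) : ι × Bool → IA F V
  | (Q, true) => S Q
  | (Q, false) => (S Q).op

theorem prd_cons {F V ι : Type} [Field F] [CommGroup V] (S : ι → IA F V) (p : ι × Bool)
    (L : List (ι × Bool)) : prd S (p :: L) = (fac S p).tens (prd S L) := by
  rcases p with ⟨Q, b⟩
  cases b <;> rfl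

/-- Row QLP. -/
theorem qlp (qis : QisStmt) : QlpStmt := by
  intro F V ι _ _ _ S L L' h
  obtain ⟨hr, hs, ht, -, -, -, -, htens, -, hcomm, hass, -⟩ := qis F V
  induction h with
  | nil => exact hr _
  | cons x _ ih =>
    rw [prd_cons, prd_cons]
    exact htens _ _ _ _ (hr _) ih
  | swap x y l =>
    rw [prd_cons, prd_cons, prd_cons, prd_cons]
    refine ht _ _ _ (hs _ _ (hass _ _ _)) (ht _ _ _ ?_ (hass _ _ _))
    exact htens _ _ _ _ (hcomm _ _) (hr _)
  | trans _ _ ih1 ih2 => exact ht _ _ _ ih1 ih2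

end Pool.Agent.PFC.H63
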