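import Pool.Agent.PFC.StmtsB5a

/-!
# Squad PFC, row SEXa: separability and the form of the final algebra
-/

namespace Pool.Agent.PFC.B5a.H63

/-- Row SEXa. -/
theorem sexa : SexRow := by
  intro fvt bki fdb cug cas uns lam spg
  intro F V E A _ _ _ _ _ _ _ _ _ ℓ _ φ e0 _ γ mu hctx hfrm hloc hone hhig
  have hp : Fact ℓ.Prime := ⟨hctx.pr⟩
  have hnt : Nontrivial V := by
    obtain ⟨u, hu⟩ := hctx.nt
    exact ⟨u, 1, hu⟩
  obtain ⟨c', hci, lm, h1, h2, h3, h4, h5⟩ := lam fvt cug ℓ F V E A φ e0 γ mu hctx hfrm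
  obtain ⟨al, hal⟩ := hhig lm h2 h3 h4
  exact ⟨inferInstance,
    spg bki fdb cas uns F V E A φ γ mu lm c' al hfrm.sym hfrm.nd hci h5 hal hloc hone,
    ⟨mu, hfrm.sym, hfrm.nd⟩, ⟨lm, h2, h3, h4, al, hal⟩⟩

end Pool.Agent.PFC.B5a.H63
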