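import Pool.Agent.PFC.StmtsB5c
import Pool.Agent.Helper77_PFC.TRSa

/-!
# Squad PFC, row TRB: a model of the Brauer quotient of a summand of a permutation module is split
-/

open scoped BigOperators TensorProduct

noncomputable section

namespace Pool.Agent.PFC.B5c.H63

open Pool.Agent.PFC.B5a (zin)
open MulAction

section ad

variable {F V M : Type} [Field F] [Group V] [AddCommGroup M] [Module F M]

/-- conjugation on the endomorphisms -/
def ad (ρ : V →* (M →ₗ[F] M)) : V →* ((M →ₗ[F] M) →ₗ[F] (M →ₗ[F] M)) where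
  toFun v :=
    { toFun := fun h => ρ v ∘ₗ h ∘ₗ ρ v⁻¹
      map_add' := by
        intro f g
        ext m
        simp
      map_smul' := by
        intro r f
        ext m
        simp }
  map_one' := by
    ext f m
    simp
  map_mul' u v := by
    ext f m
    simp

theorem ad_apply (ρ : V →* (M →ₗ[F] M)) (v : V) (h : M →ₗ[F] M) (m : M) :
    ad ρ v h m = ρ v (h (ρ v⁻¹ m)) := rfl

theorem BK_le_PT (ρ : V →* (M →ₗ[F] M)) (Q : Subgroup V) : BK (ad ρ) Q ≤ PT ρ Q := by
  unfold BK PT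
  rw [Submodule.span_le]
  rintro n ⟨P', S, m, hlt, hS, hm, rfl⟩
  refine Submodule.subset_span ⟨P', S, m, hlt, hS, ?_, ?_⟩
  · intro k hk x
    have h1 := hm k hk
    have h2 := LinearMap.congr_fun h1 (ρ k x)
    rw [ad_apply] at h2
    have h3 : ρ k⁻¹ (ρ k x) = x := by
      rw [← Module.End.mul_apply, ← map_mul, inv_mul_cancel, map_one, Module.End.one_apply]
    rw [h3] at h2
    exact h2
  · intro x
    rw [LinearMap.sum_apply]
    rfl

theorem PT_comp {ρ : V →* (M →ₗ[F] M)} {Q : Subgroup V} {T g : M →ₗ[F] M} (hT : T ∈ PT ρ Q)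
    (hg : ∀ v m, g (ρ v m) = ρ v (g m)) : T ∘ₗ g ∈ PT ρ Q := by
  unfold PT at hT
  induction hT using Submodule.span_induction with
  | mem T hT =>
    obtain ⟨K, S, h, hlt, hS, hc, hT⟩ := hT
    refine Submodule.subset_span ⟨K, S, h ∘ₗ g, hlt, hS, ?_, ?_⟩
    · intro k hk m
      rw [LinearMap.comp_apply, LinearMap.comp_apply, hg, hc k hk]
    · intro m
      rw [LinearMap.comp_apply, hT]
      refine Finset.sum_congr rfl fun x _ => ?_
      rw [LinearMap.comp_apply, hg]
  | zero =>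
    rw [LinearMap.zero_comp]
    exact Submodule.zero_mem _
  | add a b _ _ ha hb =>
    rw [LinearMap.add_comp]
    exact Submodule.add_mem _ ha hb
  | smul r a _ ha =>
    rw [LinearMap.smul_comp]
    exact Submodule.smul_mem _ _ ha

end ad

section alg

variable {F V A : Type} [Field F] [CommGroup V] [Ring A] [Algebra F A]

theorem cj_apply (α : V →* A) (u : V) (a : A) : cj F α u a = α u * (a * α u⁻¹) := rfl

theorem fx_iff (α : V →* A) (Q : Subgroup V) (a : A) : a ∈ Fx (cj F α) Q ↔ a ∈ Cz F α Q := by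
  rw [Cz, Subalgebra.mem_centralizer_iff]
  constructor
  · rintro h _ ⟨u, hu, rfl⟩
    have h1 := h u hu
    rw [cj_apply] at h1
    calc α u * a = α u * (a * (α u⁻¹ * α u)) := by
          rw [← map_mul, inv_mul_cancel, map_one, mul_one]
      _ = α u * (a * α u⁻¹) * α u := by simp only [mul_assoc]
      _ = a * α u := by rw [h1]
  · intro h u hu
    rw [cj_apply, ← mul_assoc, h _ ⟨u, hu, rfl⟩, mul_assoc, ← map_mul, mul_inv_cancel, map_one,
      mul_one]

end alg

/-- Row TRB. -/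
theorem trb : TrbStmt := by
  classical
  intro ℓ hℓ F V _ _ _ _ X Y Q q hV hCP hsur hker hzin
  obtain ⟨Ω, iΩ, iA, b, c, hfr, -⟩ := hCP
  have hQ : IsPGroup ℓ Q := hV.to_subgroup Q
  -- the fixed points
  have hst : ∀ (v : V) (ω : Ω), ω ∈ fp Q Ω → v • ω ∈ fp Q Ω := by
    intro v ω hω
    rw [mem_fp] at hω ⊢
    intro h hh
    rw [← mul_smul, mul_comm, mul_smul, hω h hh]
  have hb : ∀ ω ∈ fp Q Ω, b ω ∈ Fx (cj F X.ι) Q := by
    intro ω hω h hh
    rw [← hfr.1, (mem_fp Q Ω ω).1 hω h hh]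
  -- the projection
  let e : X.A →ₗ[F] X.A := ∑ ω ∈ fp Q Ω, (c ω).smulRight (b ω)
  have he : ∀ m, e m = ∑ ω ∈ fp Q Ω, c ω m • b ω := by
    intro m
    simp only [e, LinearMap.sum_apply, LinearMap.smulRight_apply]
  have heF : ∀ m, e m ∈ Fx (cj F X.ι) Q := by
    intro m
    rw [he]
    exact Submodule.sum_mem _ fun ω hω => Submodule.smul_mem _ _ (hb ω hω)
  have heC : ∀ m, e m ∈ Cz F X.ι Q := fun m => (fx_iff X.ι Q _).1 (heF m)
  have hev : ∀ (v : V) (m : X.A), e (cj F X.ι v m) = cj F X.ι v (e m) := by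
    intro v m
    rw [he, he, map_sum]
    symm
    refine Finset.sum_bij (fun ω _ => v • ω) (fun ω hω => hst v ω hω) ?_ ?_ ?_
    · intro x _ y _ hxy
      exact smul_left_cancel v hxy
    · intro y hy
      exact ⟨v⁻¹ • y, hst v⁻¹ y hy, smul_inv_smul v y⟩
    · intro ω _
      rw [map_smul, hfr.2.1, hfr.1]
  have heB : ∀ m ∈ BK (cj F X.ι) Q, e m = 0 := by
    intro m hm
    rw [he]
    refine Finset.sum_eq_zero fun ω hω => ?_
    rw [frame_BK hfr Q hQ hm ω ((mem_fp Q Ω ω).1 hω), zero_smul]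
  have hsub : ∀ m ∈ Fx (cj F X.ι) Q, m - e m ∈ BK (cj F X.ι) Q := by
    intro m hm
    rw [he]
    exact frame_sub hfr Q hm
  -- the map β
  let e' : X.A →ₗ[F] Cz F X.ι Q := LinearMap.codRestrict (Subalgebra.toSubmodule (Cz F X.ι Q)) e heC
  have he' : ∀ m, ((e' m : Cz F X.ι Q) : X.A) = e m := fun m => rfl
  let β : X.A →ₗ[F] Y.A := q.toLinearMap ∘ₗ e'
  have hβ : ∀ m, β m = q (e' m) := fun m => rfl
  have hβF : ∀ a : Cz F X.ι Q, β (a : X.A) = q a := by
    intro a
    rw [hβ, ← sub_eq_zero, ← map_sub, hker]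
    have h1 := hsub _ ((fx_iff X.ι Q (a : X.A)).2 a.2)
    have h2 : ((e' (a : X.A) - a : Cz F X.ι Q) : X.A) = -((a : X.A) - e (a : X.A)) := by
      rw [neg_sub]
      rfl
    rw [h2]
    exact Submodule.neg_mem _ h1
  -- the section
  obtain ⟨r, hr⟩ := LinearMap.exists_rightInverse_of_surjective q.toLinearMap
    (LinearMap.range_eq_top.2 hsur)
  have hr' : ∀ n, q (r n) = n := fun n => LinearMap.congr_fun hr n
  let s : Y.A →ₗ[F] X.A := e ∘ₗ (Cz F X.ι Q).val.toLinearMap ∘ₗ r
  have hs : ∀ n, s n = e ((r n : Cz F X.ι Q) : X.A) := fun n => rfl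
  have hsq : ∀ a : Cz F X.ι Q, s (q a) = e (a : X.A) := by
    intro a
    rw [hs, ← sub_eq_zero, ← map_sub]
    apply heB
    have h1 : q (r (q a) - a) = 0 := by
      rw [map_sub, hr', sub_self]
    exact (hker _).1 h1
  -- conjugation
  have hcj : ∀ (v : V) (a : Cz F X.ι Q),
      ((zin F X.ι Q v * (a * zin F X.ι Q v⁻¹) : Cz F X.ι Q) : X.A) = cj F X.ι v (a : X.A) :=
    fun v a => rfl
  have hqcj : ∀ (v : V) (a : Cz F X.ι Q),
      q (zin F X.ι Q v * (a * zin F X.ι Q v⁻¹)) = cj F Y.ι v (q a) := by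
    intro v a
    rw [map_mul, map_mul, hzin, hzin]
    rfl
  refine ⟨β, s, ⟨⟨?_, ?_, ?_, ?_, ?_⟩, ?_, ?_⟩⟩
  · intro n
    have h1 : s n = ((e' ((r n : Cz F X.ι Q) : X.A) : Cz F X.ι Q) : X.A) := rfl
    rw [h1, hβF, ← hβ, hβF, hr']
  · intro v m
    have h1 : e' (cj F X.ι v m) = zin F X.ι Q v * (e' m * zin F X.ι Q v⁻¹) := by
      apply Subtype.ext
      rw [he', hev, hcj, he']
    rw [hβ, h1, hqcj, hβ]
  · intro v n
    have h1 : cj F Y.ι v n = q (zin F X.ι Q v * (r n * zin F X.ι Q v⁻¹)) := by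
      rw [hqcj, hr']
    rw [h1, hsq, hcj, hev, hs]
  · intro u hu n
    have h1 : zin F X.ι Q u * (r n * zin F X.ι Q u⁻¹) = r n := by
      apply Subtype.ext
      rw [hcj]
      exact (fx_iff X.ι Q _).2 (r n).2 u hu
    have h2 := hqcj u (r n)
    rw [h1, hr'] at h2
    exact h2.symm
  · -- the complement
    have h1 : LinearMap.id - e ∈ PT (cj F X.ι) Q := by
      have h2 : LinearMap.id - e = ∑ ω ∈ Finset.univ \ fp Q Ω, (c ω).smulRight (b ω) := by
        have h3 := Finset.sum_sdiff (Finset.subset_univ (fp Q Ω))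
          (f := fun ω => (c ω).smulRight (b ω))
        have h4 : ∑ ω, (c ω).smulRight (b ω) = (LinearMap.id : X.A →ₗ[F] X.A) := by
          ext m
          rw [LinearMap.sum_apply]
          exact hfr.2.2 m
        rw [h4] at h3
        exact sub_eq_of_eq_add h3.symm
      rw [h2]
      apply BK_le_PT
      refine B5a.H77.trs F V (X.A →ₗ[F] X.A) Ω (ad (cj F X.ι)) Q
        (fun ω => (c ω).smulRight (b ω)) _ ?_ ?_ ?_
      · intro ω hω h hh
        rw [Finset.mem_sdiff] at hω ⊢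
        refine ⟨Finset.mem_univ _, fun hc => hω.2 ?_⟩
        have h5 := hst h⁻¹ _ hc
        rwa [inv_smul_smul] at h5
      · intro ω hω hc
        exact (Finset.mem_sdiff.1 hω).2 ((mem_fp Q Ω ω).2 hc)
      · intro h _ ω
        ext m
        rw [ad_apply, LinearMap.smulRight_apply, LinearMap.smulRight_apply, map_smul, hfr.1]
        congr 1
        have h5 := hfr.2.1 h ω (cj F X.ι h⁻¹ m)
        rw [← h5, ← Module.End.mul_apply, ← map_mul, mul_inv_cancel, map_one,
          Module.End.one_apply]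
    have h6 := PT_comp (g := LinearMap.id + e) h1 (by
      intro v m
      rw [LinearMap.add_apply, LinearMap.add_apply, LinearMap.id_apply, LinearMap.id_apply,
        map_add, hev])
    have h7 : LinearMap.id - s ∘ₗ β = (LinearMap.id - e) ∘ₗ (LinearMap.id + e) := by
      ext m
      have h8 : s (β m) = e (e m) := by
        rw [hβ, hsq, he']
      rw [LinearMap.sub_apply, LinearMap.comp_apply, LinearMap.id_apply, h8,
        LinearMap.comp_apply, LinearMap.sub_apply, LinearMap.add_apply, LinearMap.id_apply,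
        LinearMap.id_apply, map_add]
      abel
    rw [h7]
    exact h6
  · intro a ha a' ha'
    have h1 := (fx_iff X.ι Q a).1 ha
    have h2 := (fx_iff X.ι Q a').1 ha'
    have h3 := hβF (⟨a, h1⟩ * ⟨a', h2⟩)
    rw [map_mul, ← hβF, ← hβF] at h3
    exact h3
  · intro v
    have h1 := hβF (zin F X.ι Q v)
    rw [hzin] at h1
    exact h1

end Pool.Agent.PFC.B5c.H63
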