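import Pool.Agent.PFC.StmtsB4a

/-!
# Squad PFC, row EXF
-/

namespace Pool.Agent.PFC.H63

open MulAction

/-- Row EXF. -/
theorem exf : ExfStmt := by
  classical
  intro ℓ hℓ F H M _ _ _ _ _ _ ρ X hPS R hR hN lam hlam hinv
  obtain ⟨Ω, iΩ, iA, b, c, hfr, -⟩ := hPS
  have hmem : ∀ (h : H) (ω : Ω), ω ∈ fp R Ω → h • ω ∈ fp R Ω := by
    intro h ω hω
    rw [mem_fp] at hω ⊢
    intro r hr
    have h1 : h⁻¹ * r * h ∈ R := by
      have := hN.conj_mem r hr h⁻¹
      simpa using this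
    have h2 := hω _ h1
    rw [mul_smul, mul_smul, inv_smul_eq_iff] at h2
    exact h2
  have hb : ∀ ω ∈ fp R Ω, b ω ∈ Fx ρ R := by
    intro ω hω h hh
    rw [← hfr.1, (mem_fp R Ω ω).1 hω h hh]
  refine ⟨∑ ω ∈ fp R Ω, lam (b ω) • c ω, ?_, ?_⟩
  · intro h m
    rw [LinearMap.sum_apply, LinearMap.sum_apply]
    symm
    refine Finset.sum_bij (fun ω _ => h • ω) (fun ω hω => hmem h ω hω) ?_ ?_ ?_
    · intro x _ y _ hxy
      exact smul_left_cancel h hxy
    · intro y hy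
      exact ⟨h⁻¹ • y, hmem h⁻¹ y hy, smul_inv_smul h y⟩
    · intro ω hω
      rw [LinearMap.smul_apply, LinearMap.smul_apply, hfr.2.1, hfr.1, hinv h _ (hb ω hω)]
  · intro m hm
    have h1 := hlam _ (frame_sub hfr R hm)
    rw [map_sub, sub_eq_zero] at h1
    rw [h1, map_sum, LinearMap.sum_apply]
    refine Finset.sum_congr rfl ?_
    intro ω _
    rw [LinearMap.smul_apply, map_smul, smul_eq_mul, smul_eq_mul, mul_comm]

end Pool.Agent.PFC.H63
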