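import Pool.Agent.PFC.Chain
import Pool.Agent.Helper50_PP.Ffa

/-!
# Squad PFC, row FCT
-/

open scoped BigOperators

noncomputable section

namespace Pool.Agent.PFC.H63

open Pool.Agent.Helper51_AWC Pool.Agent.Helper79_WRA Pool.Agent.PP Pool.Agent.PP.KF
open Pool.Agent.PP.K9 Pool.Agent.PP.K9.H97 Pool.Agent.PP.H75 Pool.Agent.PP.T3 Pool.Agent.PP.T2
open Pool.Agent.PP.T8 (Fr)

attribute [local instance] Ideal.Quotient.field

/-- Row FCT. -/
theorem fct (pib : PibStmt) (pui : PuiStmt) (deft : DefStmt) (lfr : T8.LfrStmt) : FctStmt := by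
  intro ℓ hℓ M hMm hM h2 G _ _ e V γ hL hV hF hC
  have hG : GoodF ℓ (FF M) := H50.fld ℓ Fact.out M hM
  obtain ⟨W, E, A, iW, iWf, iE, iEf, iA, iAl, φ, e0, α, hctx, hpin, hcard, hls⟩ :=
    pib ℓ M hM G e V γ hL hV hF hC
  have hch : CharP (FF M) ℓ := hG.char
  have hcl : IsAlgClosed (FF M) := hG.closed
  have iFt : Fintype (W ⋊[φ] E) := Fintype.ofEquiv (W × E) SemidirectProduct.equivProd.symm
  obtain ⟨A', iA', iAl', γ', hS, hls'⟩ := pui (FF M) W E A ℓ φ e0 α hctx hpin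
  have hle : Nat.card E ≤ ls (FF M) A' := deft (FF M) W E A' ℓ φ e0 γ' hctx hS
  have h1 : ix V γ ≤ ln e := by
    rw [← hcard]
    exact (hle.trans hls').trans hls
  exact le_antisymm (lfr ℓ M hM h2 G e V γ hL hV hF) h1

end Pool.Agent.PFC.H63
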